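import Mathlib

/-!
# Infinitely many `n` such that `n - 2 ^ k` is squarefree for all `k ≥ 1` with `2 ^ k < n`

Let `K = 10 j` and `z = 2 j`. Let `Q` be the product of the odd primes up to `z`; it is at most `4 ^ z = 2 ^ (4 j)`.
All numbers `n = Q (2 t + 1)` with `t < T = 2 ^ (6 j - 1)` are below `2 ^ K`, and `n - 2 ^ k` is then coprime
to every prime `p ≤ z`. For a prime `p > z` and an exponent `k < K` the number of `t < T` such that `p ^ 2` divides
`n - 2 ^ k` is at most `T / p ^ 2 + 1`. Since the primes have density zero, the sum of `1 / p ^ 2` over the primes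
`p > z` is `o (1 / z)`, so altogether at most `T / 2` values of `t` are lost.
-/

set_option autoImplicit false

namespace Pool.Agent.Results.MP_fcd74d_nt.InfinitelyManyGood

open Finset Filter Topology

/-- The primes have density zero. -/
lemma eventually_primeCounting_le_mul {ε : ℝ} (hε : 0 < ε) :
    ∀ᶠ n : ℕ in atTop, (Nat.primeCounting n : ℝ) ≤ ε * n := by
  have h1 := Chebyshev.eventually_primeCounting_le (ε := 1) one_pos
  have h2 : ∀ᶠ x : ℝ in atTop, (Real.log 4 + 1) / ε ≤ Real.log x :=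
    Real.tendsto_log_atTop.eventually_ge_atTop _
  have h3 : ∀ᶠ x : ℝ in atTop, (1 : ℝ) < x := eventually_gt_atTop 1
  have h4 : ∀ᶠ x : ℝ in atTop, (Nat.primeCounting ⌊x⌋₊ : ℝ) ≤ ε * x := by
    filter_upwards [h1, h2, h3] with x hx1 hx2 hx3
    refine hx1.trans ?_
    have hlog : 0 < Real.log x := Real.log_pos hx3
    rw [div_le_iff₀ hlog]
    rw [div_le_iff₀ hε] at hx2
    have hx0 : 0 < x := by linarith
    nlinarith [mul_le_mul_of_nonneg_right hx2 hx0.le]
  have h5 := tendsto_natCast_atTop_atTop (R := ℝ) |>.eventually h4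
  filter_upwards [h5] with n hn
  simpa using hn

/-- Partial summation. -/
lemma sum_prime_inv_sq_le {ε : ℝ} (hε : 0 ≤ ε) {z : ℕ}
    (hz : ∀ n ≥ z, (Nat.primeCounting n : ℝ) ≤ ε * n) (Y : ℕ) (hY : z ≤ Y) :
    ∑ p ∈ (Ioc z Y).filter Nat.Prime, (1 : ℝ) / (p : ℝ) ^ 2 ≤
      (Nat.primeCounting Y : ℝ) / ((Y : ℝ) + 1) ^ 2 +
        2 * ε * (1 / ((z : ℝ) + 1) - 1 / ((Y : ℝ) + 1)) := by
  induction Y, hY using Nat.le_induction with
  | base => simp; positivity
  | succ Y hY ih =>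
    have h1 : (Nat.primeCounting (Y + 1) : ℝ) =
        Nat.primeCounting Y + if (Y + 1).Prime then 1 else 0 := by
      rw [← Nat.primesLE_card_eq_primeCounting, ← Nat.primesLE_card_eq_primeCounting,
        Nat.primesLE_succ]
      split_ifs with h
      · rw [card_insert_of_notMem (Nat.notMem_primesLE Y)]
        push_cast; rfl
      · simp
    have h2 : ∑ p ∈ (Ioc z (Y + 1)).filter Nat.Prime, (1 : ℝ) / (p : ℝ) ^ 2 =
        ∑ p ∈ (Ioc z Y).filter Nat.Prime, (1 : ℝ) / (p : ℝ) ^ 2 +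
          if (Y + 1).Prime then 1 / ((Y : ℝ) + 1) ^ 2 else 0 := by
      rw [sum_filter, sum_filter, ← Finset.insert_Ioc_right_eq_Ioc_add_one hY, sum_insert (by simp)]
      push_cast
      ring
    have hpi := hz (Y + 1) (by omega)
    rw [h2]
    have hY0 : (0 : ℝ) ≤ Y := Nat.cast_nonneg Y
    have h3 : (if (Y + 1).Prime then 1 / ((Y : ℝ) + 1) ^ 2 else 0) =
        ((Nat.primeCounting (Y + 1) : ℝ) - Nat.primeCounting Y) / ((Y : ℝ) + 1) ^ 2 := by
      rw [h1]
      split_ifs <;> simp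
    rw [h3]
    have h4 : (Nat.primeCounting (Y + 1) : ℝ) * (1 / ((Y : ℝ) + 1) ^ 2 - 1 / ((Y : ℝ) + 2) ^ 2) ≤
        2 * ε * (1 / ((Y : ℝ) + 1) - 1 / ((Y : ℝ) + 2)) := by
      have h5 : 1 / ((Y : ℝ) + 1) ^ 2 - 1 / ((Y : ℝ) + 2) ^ 2 =
          (2 * Y + 3) / (((Y : ℝ) + 1) ^ 2 * ((Y : ℝ) + 2) ^ 2) := by
        field_simp; ring
      have h6 : 1 / ((Y : ℝ) + 1) - 1 / ((Y : ℝ) + 2) = 1 / (((Y : ℝ) + 1) * (Y + 2)) := by
        field_simp; ring
      rw [h5, h6]
      have h7 : (0 : ℝ) ≤ (2 * Y + 3) / (((Y : ℝ) + 1) ^ 2 * ((Y : ℝ) + 2) ^ 2) := by positivity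
      calc (Nat.primeCounting (Y + 1) : ℝ) *
            ((2 * Y + 3) / (((Y : ℝ) + 1) ^ 2 * ((Y : ℝ) + 2) ^ 2))
          ≤ (ε * ((Y + 1 : ℕ) : ℝ)) * ((2 * Y + 3) / (((Y : ℝ) + 1) ^ 2 * ((Y : ℝ) + 2) ^ 2)) :=
            mul_le_mul_of_nonneg_right hpi h7
        _ = ε * ((2 * Y + 3) / (((Y : ℝ) + 1) * ((Y : ℝ) + 2) ^ 2)) := by
            push_cast; field_simp
        _ ≤ ε * (2 * (1 / (((Y : ℝ) + 1) * (Y + 2)))) := by
            apply mul_le_mul_of_nonneg_left _ hε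
            rw [mul_one_div, div_le_div_iff₀ (by positivity) (by positivity)]
            nlinarith [mul_nonneg hY0 hY0, mul_nonneg (mul_nonneg hY0 hY0) hY0]
        _ = 2 * ε * (1 / (((Y : ℝ) + 1) * (Y + 2))) := by ring
    have h8 : ((Y + 1 : ℕ) : ℝ) + 1 = (Y : ℝ) + 2 := by push_cast; ring
    rw [h8]
    have h9 : ((Nat.primeCounting (Y + 1) : ℝ) - Nat.primeCounting Y) / ((Y : ℝ) + 1) ^ 2 +
        (Nat.primeCounting Y : ℝ) / ((Y : ℝ) + 1) ^ 2 =
        (Nat.primeCounting (Y + 1) : ℝ) * (1 / ((Y : ℝ) + 1) ^ 2) := by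
      rw [← add_div]; ring
    have h10 : (Nat.primeCounting (Y + 1) : ℝ) / ((Y : ℝ) + 2) ^ 2 =
        (Nat.primeCounting (Y + 1) : ℝ) * (1 / ((Y : ℝ) + 2) ^ 2) := by ring
    rw [h10]
    nlinarith [h4, h9, ih]

lemma sum_prime_inv_sq_le' {ε : ℝ} (hε : 0 ≤ ε) {z : ℕ}
    (hz : ∀ n ≥ z, (Nat.primeCounting n : ℝ) ≤ ε * n) (Y : ℕ) (hY : z ≤ Y) :
    ∑ p ∈ (Ioc z Y).filter Nat.Prime, (1 : ℝ) / (p : ℝ) ^ 2 ≤ 2 * ε / ((z : ℝ) + 1) := by
  have h1 := sum_prime_inv_sq_le hε hz Y hY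
  have h2 := hz Y hY
  have hY0 : (0 : ℝ) ≤ Y := Nat.cast_nonneg Y
  have h3 : (Nat.primeCounting Y : ℝ) / ((Y : ℝ) + 1) ^ 2 ≤ ε / ((Y : ℝ) + 1) := by
    rw [div_le_div_iff₀ (by positivity) (by positivity)]
    calc (Nat.primeCounting Y : ℝ) * ((Y : ℝ) + 1) ≤ (ε * Y) * ((Y : ℝ) + 1) :=
          mul_le_mul_of_nonneg_right h2 (by positivity)
      _ ≤ ε * ((Y : ℝ) + 1) ^ 2 := by
          have : (0 : ℝ) ≤ ε * ((Y : ℝ) + 1) := by positivity
          nlinarith
  have h4 : 0 ≤ ε / ((Y : ℝ) + 1) := by positivity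
  have h5 : 2 * ε * (1 / ((z : ℝ) + 1) - 1 / ((Y : ℝ) + 1)) =
      2 * ε / ((z : ℝ) + 1) - 2 * (ε / ((Y : ℝ) + 1)) := by ring
  rw [h5] at h1
  linarith

/-- The product of the odd primes up to `z`. -/
def oddPrimorial (z : ℕ) : ℕ := ∏ p ∈ (Nat.primesLE z).erase 2, p

lemma oddPrimorial_le (z : ℕ) : oddPrimorial z ≤ 4 ^ z := by
  refine le_trans ?_ (primorial_le_four_pow z)
  rw [primorial_eq_prod_primesLE]
  exact Finset.prod_le_prod_of_subset_of_one_le' (erase_subset _ _)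
    (fun p hp _ => (Nat.prime_of_mem_primesLE hp).one_le)

lemma dvd_oddPrimorial {z p : ℕ} (hp : p.Prime) (h2 : p ≠ 2) (hpz : p ≤ z) :
    p ∣ oddPrimorial z :=
  Finset.dvd_prod_of_mem _ (mem_erase.2 ⟨h2, Nat.mem_primesLE.2 ⟨hpz, hp⟩⟩)

lemma coprime_oddPrimorial {z p : ℕ} (hp : p.Prime) (h2 : p = 2 ∨ z < p) :
    Nat.Coprime p (oddPrimorial z) := by
  rw [oddPrimorial, Nat.coprime_prod_right_iff]
  intro q hq
  rw [mem_erase, Nat.mem_primesLE] at hq
  rw [Nat.coprime_primes hp hq.2.2]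
  rintro rfl
  rcases h2 with h | h
  · exact hq.1 h
  · omega

lemma card_bad_le {Q T p k : ℕ} (hp : p.Prime) (hp2 : p ≠ 2) (hQ : Nat.Coprime p Q) :
    (((range T).filter (fun t : ℕ => ((p : ℤ) ^ 2) ∣ (Q : ℤ) * (2 * (t : ℤ) + 1) - 2 ^ k)).card : ℝ) ≤
      T * (1 / (p : ℝ) ^ 2) + 1 := by
  have hp0 : 0 < p := hp.pos
  have hinj : ((range T).filter (fun t : ℕ => ((p : ℤ) ^ 2) ∣ (Q : ℤ) * (2 * (t : ℤ) + 1) - 2 ^ k)).card ≤
      (range (T / p ^ 2 + 1)).card := by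
    apply Finset.card_le_card_of_injOn (fun t => t / p ^ 2)
    · intro t ht
      simp only [coe_filter, mem_range, Set.mem_ofPred_eq] at ht
      simp only [coe_range, Set.mem_Iio]
      exact Nat.lt_succ_of_le (Nat.div_le_div_right ht.1.le)
    · intro t ht s hs hts
      simp only [coe_filter, mem_range, Set.mem_ofPred_eq] at ht hs
      simp only at hts
      have h1 : ((p : ℤ) ^ 2) ∣ ((2 * Q : ℕ) : ℤ) * ((t : ℤ) - s) := by
        have h0 := dvd_sub ht.2 hs.2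
        have h00 : (Q : ℤ) * (2 * (t : ℤ) + 1) - 2 ^ k - ((Q : ℤ) * (2 * (s : ℤ) + 1) - 2 ^ k) =
            ((2 * Q : ℕ) : ℤ) * ((t : ℤ) - s) := by push_cast; ring
        rwa [h00] at h0
      have h2 : IsCoprime ((p : ℤ) ^ 2) ((2 * Q : ℕ) : ℤ) := by
        have h3 : Nat.Coprime (p ^ 2) (2 * Q) := by
          apply Nat.Coprime.pow_left
          exact Nat.Coprime.mul_right ((Nat.coprime_primes hp Nat.prime_two).2 hp2) hQ
        have h4 := Nat.isCoprime_iff_coprime.2 h3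
        push_cast at h4 ⊢
        exact h4
      have h5 : ((p : ℤ) ^ 2) ∣ (t : ℤ) - s := h2.dvd_of_dvd_mul_left h1
      have h6 : t ≡ s [MOD p ^ 2] := by
        rw [Nat.modEq_iff_dvd]
        push_cast
        have := dvd_neg.2 h5
        simpa using this
      have h7 := Nat.div_add_mod t (p ^ 2)
      have h8 := Nat.div_add_mod s (p ^ 2)
      rw [← h7, ← h8, hts, h6]
  rw [card_range] at hinj
  have h9 : (((range T).filter
      (fun t : ℕ => ((p : ℤ) ^ 2) ∣ (Q : ℤ) * (2 * (t : ℤ) + 1) - 2 ^ k)).card : ℝ) ≤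
      ((T / p ^ 2 : ℕ) : ℝ) + 1 := by
    exact_mod_cast hinj
  refine h9.trans ?_
  have h10 : ((T / p ^ 2 : ℕ) : ℝ) ≤ (T : ℝ) / ((p ^ 2 : ℕ) : ℝ) := Nat.cast_div_le
  push_cast at h10
  rw [mul_one_div]
  linarith

/-- There are infinitely many good integers: for infinitely many `n` every difference `n - 2 ^ k` with `k ≥ 1` and
`2 ^ k < n` is squarefree. -/
theorem result :
    {n : ℕ | 3 ≤ n ∧ ∀ k : ℕ, 1 ≤ k → 2 ^ k < n → Squarefree (n - 2 ^ k)}.Infinite := by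
  rw [Set.infinite_iff_exists_gt]
  intro N
  -- choice of j
  obtain ⟨z0, hz0⟩ := Filter.eventually_atTop.1
    (eventually_primeCounting_le_mul (ε := 1 / 40) (by norm_num))
  obtain ⟨j, hj⟩ : ∃ j : ℕ, j = z0 + N + 10 := ⟨_, rfl⟩
  obtain ⟨K, hK⟩ : ∃ K : ℕ, K = 10 * j := ⟨_, rfl⟩
  obtain ⟨z, hz⟩ : ∃ z : ℕ, z = 2 * j := ⟨_, rfl⟩
  obtain ⟨T, hT⟩ : ∃ T : ℕ, T = 2 ^ (6 * j - 1) := ⟨_, rfl⟩
  obtain ⟨Q, hQ⟩ : ∃ Q : ℕ, Q = oddPrimorial z := ⟨_, rfl⟩
  have hQle : Q ≤ 2 ^ (4 * j) := by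
    rw [hQ]
    refine (oddPrimorial_le z).trans ?_
    rw [hz, show (4 : ℕ) = 2 ^ 2 by norm_num, ← pow_mul]
    apply Nat.pow_le_pow_right (by norm_num)
    omega
  have hQpos : 0 < Q := by
    rw [hQ, oddPrimorial]
    apply Finset.prod_pos
    intro p hp
    exact (Nat.prime_of_mem_primesLE (mem_of_mem_erase hp)).pos
  have hjpow : 80 * j ≤ 2 ^ j := by
    have : ∀ m : ℕ, 10 ≤ m → 80 * m ≤ 2 ^ m := by
      intro m hm
      induction m, hm using Nat.le_induction with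
      | base => norm_num
      | succ m hm ih => rw [pow_succ]; omega
    exact this j (by omega)
  have hTeq : 2 * T = 2 ^ (6 * j) := by
    rw [hT, ← pow_succ']
    congr 1
    omega
  have hnlt : ∀ t < T, Q * (2 * t + 1) < 2 ^ K := by
    intro t ht
    calc Q * (2 * t + 1) < Q * (2 * T) := Nat.mul_lt_mul_of_pos_left (by omega) hQpos
      _ ≤ 2 ^ (4 * j) * 2 ^ (6 * j) := by rw [hTeq]; exact Nat.mul_le_mul_right _ hQle
      _ = 2 ^ K := by rw [← pow_add, hK]; congr 1; omega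
  -- the bad set
  obtain ⟨P, hP⟩ : ∃ P : Finset ℕ, P = (Ioc z (2 ^ (5 * j))).filter Nat.Prime := ⟨_, rfl⟩
  obtain ⟨bad, hbad⟩ : ∃ bad : Finset ℕ, bad = (range K).biUnion (fun k => P.biUnion (fun p =>
    (range T).filter (fun t : ℕ => ((p : ℤ) ^ 2) ∣ (Q : ℤ) * (2 * (t : ℤ) + 1) - 2 ^ k))) :=
    ⟨_, rfl⟩
  have hzY : z ≤ 2 ^ (5 * j) := by
    have h1 : z < 2 ^ z := Nat.lt_two_pow_self
    have h2 : 2 ^ z ≤ 2 ^ (5 * j) := Nat.pow_le_pow_right (by norm_num) (by omega)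
    omega
  have hS : ∑ p ∈ P, (1 : ℝ) / (p : ℝ) ^ 2 ≤ 2 * (1 / 40) / ((z : ℝ) + 1) := by
    rw [hP]
    exact sum_prime_inv_sq_le' (by norm_num) (fun n hn => hz0 n (by omega)) _ hzY
  have hPcard : (P.card : ℝ) ≤ 2 ^ (5 * j) := by
    have : P.card ≤ 2 ^ (5 * j) := by
      rw [hP]
      refine (card_filter_le _ _).trans ?_
      rw [Nat.card_Ioc]
      omega
    exact_mod_cast this
  have hjR : (10 : ℝ) ≤ j := by
    have : 10 ≤ j := by omega
    exact_mod_cast this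
  have hTR : (2 : ℝ) * T = 2 ^ (6 * j) := by exact_mod_cast hTeq
  have hbadcard : (bad.card : ℝ) ≤ T / 2 := by
    have h1 : (bad.card : ℝ) ≤ ∑ k ∈ range K, ∑ p ∈ P, ((T : ℝ) * (1 / (p : ℝ) ^ 2) + 1) := by
      have h2 : bad.card ≤ ∑ k ∈ range K, ∑ p ∈ P, ((range T).filter
          (fun t : ℕ => ((p : ℤ) ^ 2) ∣ (Q : ℤ) * (2 * (t : ℤ) + 1) - 2 ^ k)).card := by
        rw [hbad]
        refine card_biUnion_le.trans ?_
        apply sum_le_sum
        intro k _
        exact card_biUnion_le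
      have h3 : (bad.card : ℝ) ≤ ∑ k ∈ range K, ∑ p ∈ P, (((range T).filter
          (fun t : ℕ => ((p : ℤ) ^ 2) ∣ (Q : ℤ) * (2 * (t : ℤ) + 1) - 2 ^ k)).card : ℝ) := by
        exact_mod_cast h2
      refine h3.trans ?_
      apply sum_le_sum
      intro k _
      apply sum_le_sum
      intro p hp
      rw [hP, mem_filter, mem_Ioc] at hp
      rw [hQ]
      exact card_bad_le hp.2 (by omega) (coprime_oddPrimorial hp.2 (Or.inr hp.1.1))
    refine h1.trans ?_
    rw [sum_const, card_range, nsmul_eq_mul, sum_add_distrib, ← mul_sum, sum_const, nsmul_eq_mul,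
      mul_one]
    have hKR : (K : ℝ) = 10 * j := by rw [hK]; push_cast; ring
    have hzR : (z : ℝ) = 2 * j := by rw [hz]; push_cast; ring
    have hT0 : (0 : ℝ) ≤ T := Nat.cast_nonneg T
    have h4 : (K : ℝ) * (T * ∑ p ∈ P, (1 : ℝ) / (p : ℝ) ^ 2) ≤ T / 4 := by
      calc (K : ℝ) * (T * ∑ p ∈ P, (1 : ℝ) / (p : ℝ) ^ 2)
          ≤ (10 * j) * (T * (2 * (1 / 40) / ((z : ℝ) + 1))) := by
            rw [hKR]
            gcongr
        _ = T * (j / (2 * (2 * j + 1))) := by rw [hzR]; field_simp; ring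
        _ ≤ T * (1 / 4) := by
            apply mul_le_mul_of_nonneg_left _ hT0
            rw [div_le_div_iff₀ (by positivity) (by norm_num)]
            linarith
        _ = T / 4 := by ring
    have h5 : (K : ℝ) * P.card ≤ T / 4 := by
      have h6 : (80 * j : ℝ) ≤ 2 ^ j := by exact_mod_cast hjpow
      calc (K : ℝ) * P.card ≤ (10 * j) * 2 ^ (5 * j) := by rw [hKR]; gcongr
        _ ≤ (2 ^ j / 8) * 2 ^ (5 * j) := by gcongr; linarith
        _ = 2 ^ (6 * j) / 8 := by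
            rw [show 6 * j = j + 5 * j by ring, pow_add]; ring
        _ = T / 4 := by rw [← hTR]; ring
    rw [mul_add]
    linarith
  -- find a good t
  have hNT : (N : ℝ) < T / 2 := by
    have h1 : 4 * N < 2 ^ (6 * j) := by
      have h2 : N < 2 ^ N := Nat.lt_two_pow_self
      have h3 : 2 ^ (N + 2) ≤ 2 ^ (6 * j) := Nat.pow_le_pow_right (by norm_num) (by omega)
      rw [pow_add] at h3
      omega
    have h4 : (4 * N : ℝ) < 2 ^ (6 * j) := by exact_mod_cast h1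
    linarith
  obtain ⟨t, htT, htbad, htN⟩ : ∃ t, t < T ∧ t ∉ bad ∧ N ≤ t := by
    by_contra hcon
    push Not at hcon
    have hsub : range T ⊆ bad ∪ range N := by
      intro t ht
      rw [mem_range] at ht
      rw [mem_union, mem_range]
      by_cases hb : t ∈ bad
      · exact Or.inl hb
      · exact Or.inr (hcon t ht hb)
    have h1 := (card_le_card hsub).trans (card_union_le _ _)
    rw [card_range, card_range] at h1
    have h2 : (T : ℝ) ≤ bad.card + N := by exact_mod_cast h1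
    linarith
  refine ⟨Q * (2 * t + 1), ⟨?_, ?_⟩, ?_⟩
  · -- 3 ≤ n
    have h3 : 3 ∣ Q := by
      rw [hQ]
      exact dvd_oddPrimorial Nat.prime_three (by norm_num) (by omega)
    have h4 : 3 ≤ Q := Nat.le_of_dvd hQpos h3
    calc 3 ≤ Q := h4
      _ ≤ Q * (2 * t + 1) := Nat.le_mul_of_pos_right _ (by omega)
  · intro k hk1 hkn
    rw [Nat.squarefree_iff_prime_squarefree]
    intro p hp hdvd
    have hn := hnlt t htT
    have hpos : 0 < Q * (2 * t + 1) - 2 ^ k := Nat.sub_pos_of_lt hkn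
    have hcast : ((Q * (2 * t + 1) - 2 ^ k : ℕ) : ℤ) = (Q : ℤ) * (2 * t + 1) - 2 ^ k := by
      rw [Nat.cast_sub hkn.le]; push_cast; ring
    by_cases hp2 : p = 2
    · -- parity
      subst hp2
      have h1 : 2 ∣ Q * (2 * t + 1) - 2 ^ k := (Dvd.intro _ rfl).trans hdvd
      have h2 : 2 ∣ 2 ^ k := dvd_pow_self 2 (by omega)
      have h3 : 2 ∣ Q * (2 * t + 1) := by
        have := (Nat.dvd_add_right h2).2 h1
        rwa [Nat.add_sub_cancel' hkn.le] at this
      rcases (Nat.prime_two.dvd_mul).1 h3 with h4 | h4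
      · have := coprime_oddPrimorial (z := z) Nat.prime_two (Or.inl rfl)
        rw [← hQ, Nat.Prime.coprime_iff_not_dvd Nat.prime_two] at this
        exact this h4
      · omega
    · by_cases hpz : p ≤ z
      · have h1 : p ∣ Q * (2 * t + 1) - 2 ^ k := (Dvd.intro _ rfl).trans hdvd
        have h2 : p ∣ Q * (2 * t + 1) := by
          rw [hQ]
          exact (dvd_oddPrimorial hp hp2 hpz).mul_right _
        have h3 : p ∣ 2 ^ k := by
          have := (Nat.dvd_sub_iff_right hkn.le h2).1 h1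
          exact this
        have h4 : p ∣ 2 := hp.dvd_of_dvd_pow h3
        exact hp2 ((Nat.prime_dvd_prime_iff_eq hp Nat.prime_two).1 h4)
      · push Not at hpz
        apply htbad
        rw [hbad, mem_biUnion]
        have hkK : k < K := by
          have : 2 ^ k < 2 ^ K := hkn.trans hn
          exact (Nat.pow_lt_pow_iff_right (by norm_num)).1 this
        refine ⟨k, mem_range.2 hkK, ?_⟩
        rw [mem_biUnion]
        refine ⟨p, ?_, ?_⟩
        · rw [hP, mem_filter, mem_Ioc]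
          refine ⟨⟨hpz, ?_⟩, hp⟩
          have h1 : p * p ≤ Q * (2 * t + 1) - 2 ^ k := Nat.le_of_dvd hpos hdvd
          have h2 : p * p < 2 ^ (5 * j) * 2 ^ (5 * j) := by
            rw [← pow_add]
            have h3 : 5 * j + 5 * j = K := by omega
            rw [h3]
            exact lt_of_le_of_lt h1 (lt_of_le_of_lt (Nat.sub_le _ _) hn)
          by_contra hcon
          push Not at hcon
          exact absurd (Nat.mul_le_mul hcon.le hcon.le) (not_le.2 h2)
        · rw [mem_filter]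
          refine ⟨mem_range.2 htT, ?_⟩
          rw [← hcast]
          have : ((p * p : ℕ) : ℤ) ∣ ((Q * (2 * t + 1) - 2 ^ k : ℕ) : ℤ) := by
            exact_mod_cast hdvd
          rw [pow_two]
          exact_mod_cast this
  · calc N ≤ t := htN
      _ < 2 * t + 1 := by omega
      _ ≤ Q * (2 * t + 1) := Nat.le_mul_of_pos_left _ hQpos

end Pool.Agent.Results.MP_fcd74d_nt.InfinitelyManyGood
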